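import Pool.Agent.Helper44.GH.Stmts

/-!
# MP_d210aa_gt, module ABE: expectations of the quadratic forms
-/

open Finset MeasureTheory Filter Topology Matrix
open scoped ENNReal ContDiff

namespace Pool.Agent.Helper44.GH

open Pool.Agent.Helper44.GF Pool.Agent.Helper44.GN

/-! ### Bounded measurable functions -/

/-- Measurable and almost surely bounded. -/
def abe_bd {n : ℕ} (P : Measure (Fin n → ℝ)) (f : (Fin n → ℝ) → ℝ) : Prop :=
  Measurable f ∧ ∃ C : ℝ, ∀ᵐ y ∂P, |f y| ≤ C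

theorem abe_int {n : ℕ} {P : Measure (Fin n → ℝ)} [IsProbabilityMeasure P]
    {f : (Fin n → ℝ) → ℝ} (h : abe_bd P f) : Integrable f P := by
  obtain ⟨hf, C, hC⟩ := h
  refine Integrable.of_bound hf.aestronglyMeasurable C ?_
  filter_upwards [hC] with y hy
  rwa [Real.norm_eq_abs]

theorem abe_const {n : ℕ} (P : Measure (Fin n → ℝ)) (c : ℝ) : abe_bd P (fun _ => c) :=
  ⟨measurable_const, |c|, Filter.Eventually.of_forall fun _ => le_rfl⟩

theorem abe_add {n : ℕ} {P : Measure (Fin n → ℝ)} {f g : (Fin n → ℝ) → ℝ}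
    (hf : abe_bd P f) (hg : abe_bd P g) : abe_bd P (fun y => f y + g y) := by
  obtain ⟨h1, C, hC⟩ := hf
  obtain ⟨h2, D, hD⟩ := hg
  refine ⟨h1.add h2, C + D, ?_⟩
  filter_upwards [hC, hD] with y h3 h4
  exact (abs_add_le _ _).trans (add_le_add h3 h4)

theorem abe_mul {n : ℕ} {P : Measure (Fin n → ℝ)} {f g : (Fin n → ℝ) → ℝ}
    (hf : abe_bd P f) (hg : abe_bd P g) : abe_bd P (fun y => f y * g y) := by
  obtain ⟨h1, C, hC⟩ := hf
  obtain ⟨h2, D, hD⟩ := hg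
  refine ⟨h1.mul h2, C * D, ?_⟩
  filter_upwards [hC, hD] with y h3 h4
  rw [abs_mul]
  exact mul_le_mul h3 h4 (abs_nonneg _) ((abs_nonneg _).trans h3)

theorem abe_sub {n : ℕ} {P : Measure (Fin n → ℝ)} {f g : (Fin n → ℝ) → ℝ}
    (hf : abe_bd P f) (hg : abe_bd P g) : abe_bd P (fun y => f y - g y) := by
  obtain ⟨h1, C, hC⟩ := hf
  obtain ⟨h2, D, hD⟩ := hg
  refine ⟨h1.sub h2, C + D, ?_⟩
  filter_upwards [hC, hD] with y h3 h4
  exact (abs_sub _ _).trans (add_le_add h3 h4)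

theorem abe_sum {n : ℕ} {P : Measure (Fin n → ℝ)} {ι : Type} (s : Finset ι)
    (f : ι → (Fin n → ℝ) → ℝ) (hf : ∀ j ∈ s, abe_bd P (f j)) :
    abe_bd P (fun y => ∑ j ∈ s, f j y) := by
  classical
  induction s using Finset.induction_on with
  | empty => simpa using abe_const P 0
  | insert j s hj ih =>
    have h1 := abe_add (hf j (Finset.mem_insert_self j s))
      (ih fun i hi => hf i (Finset.mem_insert_of_mem hi))
    simpa only [Finset.sum_insert hj] using h1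

section

variable {n m : ℕ} {P : Measure (Fin n → ℝ)} {a b : ℝ} {ρ : Fin n → ℝ}

theorem abe_y (h : RB P a b ρ) (i : Fin n) : abe_bd P (fun y => y i) := by
  refine ⟨measurable_pi_apply i, b, ?_⟩
  filter_upwards [h.bd] with y hy
  rw [abs_of_nonneg (h.a0.le.trans (hy i).1)]
  exact (hy i).2

theorem abe_inv (h : RB P a b ρ) (i : Fin n) : abe_bd P (fun y => (y i)⁻¹) := by
  refine ⟨(measurable_pi_apply i).inv, a⁻¹, ?_⟩
  filter_upwards [h.bd] with y hy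
  rw [abs_of_nonneg (inv_nonneg.2 (h.a0.le.trans (hy i).1))]
  exact inv_anti₀ h.a0 (hy i).1

theorem abe_dev (h : RB P a b ρ) (i : Fin n) : abe_bd P (fun y => (y i - ρ i) ^ 2 / y i) := by
  have h1 := abe_sub (abe_y h i) (abe_const P (ρ i))
  have h2 := abe_mul (abe_mul h1 h1) (abe_inv h i)
  have e : (fun y : Fin n → ℝ => (y i - ρ i) ^ 2 / y i) =
      fun y => (y i - ρ i) * (y i - ρ i) * (y i)⁻¹ := by
    funext y
    rw [div_eq_mul_inv, sq]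
  rw [e]
  exact h2

theorem abe_pos (h : RB P a b ρ) : ∀ᵐ y ∂P, ∀ i, 0 < y i := by
  filter_upwards [h.bd] with y hy i
  exact h.a0.trans_le (hy i).1

/-- (1) -/
theorem abe_one (h : RB P a b ρ) (i j : Fin n) :
    ∫ y, (y i)⁻¹ * (y j)⁻¹ ∂P ≤ 1075 / 1000 * ((ρ i)⁻¹ * (ρ j)⁻¹) := by
  have := h.pr
  have hi : 0 < ρ i := h.r0 i
  have hj : 0 < ρ j := h.r0 j
  have hI : ∀ k, Integrable (fun y : Fin n → ℝ => ((y k)⁻¹) ^ 2) P := fun k => by
    have := abe_int (abe_mul (abe_inv h k) (abe_inv h k))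
    simpa only [sq] using this
  have h1 : ∫ y, (y i)⁻¹ * (y j)⁻¹ ∂P ≤
      ∫ y, (1 / 2 * (ρ i / ρ j) * ((y i)⁻¹) ^ 2 + 1 / 2 * (ρ j / ρ i) * ((y j)⁻¹) ^ 2) ∂P := by
    refine integral_mono (abe_int (abe_mul (abe_inv h i) (abe_inv h j)))
      (((hI i).const_mul _).add ((hI j).const_mul _)) ?_
    intro y
    have h2 : 0 ≤ 1 / 2 * (ρ i / ρ j) * ((y i)⁻¹ - ρ j / ρ i * (y j)⁻¹) ^ 2 := by positivity
    have e : 1 / 2 * (ρ i / ρ j) * ((y i)⁻¹ - ρ j / ρ i * (y j)⁻¹) ^ 2 =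
        1 / 2 * (ρ i / ρ j) * ((y i)⁻¹) ^ 2 + 1 / 2 * (ρ j / ρ i) * ((y j)⁻¹) ^ 2 -
          (y i)⁻¹ * (y j)⁻¹ := by
      generalize (y i)⁻¹ = p
      generalize (y j)⁻¹ = q
      field_simp
      ring
    show (y i)⁻¹ * (y j)⁻¹ ≤ _
    linarith
  rw [integral_add ((hI i).const_mul _) ((hI j).const_mul _), integral_const_mul,
    integral_const_mul] at h1
  refine h1.trans ?_
  have h3 := mul_le_mul_of_nonneg_left (h.m2 i) (show 0 ≤ 1 / 2 * (ρ i / ρ j) by positivity)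
  have h4 := mul_le_mul_of_nonneg_left (h.m2 j) (show 0 ≤ 1 / 2 * (ρ j / ρ i) by positivity)
  have e : 1 / 2 * (ρ i / ρ j) * (1075 / 1000 * (ρ i)⁻¹ ^ 2) +
      1 / 2 * (ρ j / ρ i) * (1075 / 1000 * (ρ j)⁻¹ ^ 2) = 1075 / 1000 * ((ρ i)⁻¹ * (ρ j)⁻¹) := by
    field_simp
    ring
  linarith

/-- The mixed product. -/
theorem abe_mix (h : RB P a b ρ) (i j : Fin n) :
    ∫ y, y i * (y j)⁻¹ ∂P ≤ 117304 / 100000 * (ρ i * (ρ j)⁻¹) := by
  have := h.pr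
  have hi : 0 < ρ i := h.r0 i
  have hj : 0 < ρ j := h.r0 j
  have hI : Integrable (fun y : Fin n → ℝ => (y i) ^ 2) P := by
    have := abe_int (abe_mul (abe_y h i) (abe_y h i))
    simpa only [sq] using this
  have hJ : Integrable (fun y : Fin n → ℝ => ((y j)⁻¹) ^ 2) P := by
    have := abe_int (abe_mul (abe_inv h j) (abe_inv h j))
    simpa only [sq] using this
  have h1 : ∫ y, y i * (y j)⁻¹ ∂P ≤
      ∫ y, (1 / 2 * (9164 / 10000 / (ρ i * ρ j)) * (y i) ^ 2 +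
        1 / 2 * (10000 / 9164 * (ρ i * ρ j)) * ((y j)⁻¹) ^ 2) ∂P := by
    refine integral_mono (abe_int (abe_mul (abe_y h i) (abe_inv h j)))
      ((hI.const_mul _).add (hJ.const_mul _)) ?_
    intro y
    have h2 : 0 ≤ 1 / 2 * (9164 / 10000 / (ρ i * ρ j)) *
        (y i - 10000 / 9164 * (ρ i * ρ j) * (y j)⁻¹) ^ 2 := by positivity
    have e : 1 / 2 * (9164 / 10000 / (ρ i * ρ j)) *
        (y i - 10000 / 9164 * (ρ i * ρ j) * (y j)⁻¹) ^ 2 =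
        1 / 2 * (9164 / 10000 / (ρ i * ρ j)) * (y i) ^ 2 +
        1 / 2 * (10000 / 9164 * (ρ i * ρ j)) * ((y j)⁻¹) ^ 2 - y i * (y j)⁻¹ := by
      generalize y i = p
      generalize (y j)⁻¹ = q
      field_simp
      ring
    show y i * (y j)⁻¹ ≤ _
    linarith
  rw [integral_add (hI.const_mul _) (hJ.const_mul _), integral_const_mul,
    integral_const_mul] at h1
  refine h1.trans ?_
  have h3 := mul_le_mul_of_nonneg_left (h.p2 i)
    (show 0 ≤ 1 / 2 * (9164 / 10000 / (ρ i * ρ j)) by positivity)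
  have h4 := mul_le_mul_of_nonneg_left (h.m2 j)
    (show 0 ≤ 1 / 2 * (10000 / 9164 * (ρ i * ρ j)) by positivity)
  have e1 : 1 / 2 * (9164 / 10000 / (ρ i * ρ j)) * (128 / 100 * ρ i ^ 2) =
      1 / 2 * (9164 / 10000 * (128 / 100)) * (ρ i * (ρ j)⁻¹) := by
    field_simp
  have e2 : 1 / 2 * (10000 / 9164 * (ρ i * ρ j)) * (1075 / 1000 * (ρ j)⁻¹ ^ 2) =
      1 / 2 * (10000 / 9164 * (1075 / 1000)) * (ρ i * (ρ j)⁻¹) := by
    field_simp
  have h5 : 0 < ρ i * (ρ j)⁻¹ := by positivity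
  rw [e1] at h3
  rw [e2] at h4
  nlinarith

/-- (2) -/
theorem abe_two (h : RB P a b ρ) (i j : Fin n) :
    ∫ y, (y i - ρ i) ^ 2 / y i * (y j)⁻¹ ∂P ≤ 24804 / 100000 * (ρ i * (ρ j)⁻¹) := by
  have := h.pr
  have hi : 0 < ρ i := h.r0 i
  have hj : 0 < ρ j := h.r0 j
  have e : ∫ y, (y i - ρ i) ^ 2 / y i * (y j)⁻¹ ∂P =
      ∫ y, (y i * (y j)⁻¹ - 2 * ρ i * (y j)⁻¹ + ρ i ^ 2 * ((y i)⁻¹ * (y j)⁻¹)) ∂P := by
    refine integral_congr_ae ?_
    filter_upwards [abe_pos h] with y hy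
    have h1 := (hy i).ne'
    have h2 := (hy j).ne'
    field_simp
    ring
  have I1 := abe_int (abe_mul (abe_y h i) (abe_inv h j))
  have I2 := abe_int (abe_inv h j)
  have I3 := abe_int (abe_mul (abe_inv h i) (abe_inv h j))
  have e2 : ∫ y, (y i * (y j)⁻¹ - 2 * ρ i * (y j)⁻¹ + ρ i ^ 2 * ((y i)⁻¹ * (y j)⁻¹)) ∂P =
      ∫ y, y i * (y j)⁻¹ ∂P - 2 * ρ i * (ρ j)⁻¹ + ρ i ^ 2 * ∫ y, (y i)⁻¹ * (y j)⁻¹ ∂P := by
    have I12 : Integrable (fun y : Fin n → ℝ => y i * (y j)⁻¹ - 2 * ρ i * (y j)⁻¹) P :=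
      I1.sub (I2.const_mul _)
    rw [integral_add I12 (I3.const_mul _), integral_sub I1 (I2.const_mul _),
      integral_const_mul, integral_const_mul, h.m1]
  rw [e, e2]
  have h1 := abe_mix h i j
  have h2 := mul_le_mul_of_nonneg_left (abe_one h i j) (sq_nonneg (ρ i))
  have e3 : ρ i ^ 2 * (1075 / 1000 * ((ρ i)⁻¹ * (ρ j)⁻¹)) = 1075 / 1000 * (ρ i * (ρ j)⁻¹) := by
    field_simp
  rw [e3] at h2
  nlinarith

/-- (3) -/
theorem abe_three (h : RB P a b ρ) (i : Fin n) :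
    ∫ y, (y i - ρ i) ^ 2 / y i ∂P ≤ 76 / 1000 * ρ i := by
  have := h.pr
  have hi : 0 < ρ i := h.r0 i
  have e : ∫ y, (y i - ρ i) ^ 2 / y i ∂P =
      ∫ y, (y i - 2 * ρ i + ρ i ^ 2 * (y i)⁻¹) ∂P := by
    refine integral_congr_ae ?_
    filter_upwards [abe_pos h] with y hy
    have h1 := (hy i).ne'
    field_simp
    ring
  have I1 := abe_int (abe_y h i)
  have I2 := abe_int (abe_inv h i)
  have I3 : Integrable (fun _ : Fin n → ℝ => 2 * ρ i) P := integrable_const _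
  have e2 : ∫ y, (y i - 2 * ρ i + ρ i ^ 2 * (y i)⁻¹) ∂P =
      ∫ y, y i ∂P - 2 * ρ i + ρ i ^ 2 * (ρ i)⁻¹ := by
    have I12 : Integrable (fun y : Fin n → ℝ => y i - 2 * ρ i) P := I1.sub I3
    rw [integral_add I12 (I2.const_mul _), integral_sub I1 I3, integral_const,
      integral_const_mul, h.m1]
    simp
  rw [e, e2]
  have h1 := h.p1 i
  have e3 : ρ i ^ 2 * (ρ i)⁻¹ = ρ i := by field_simp
  rw [e3]
  linarith

/-! ### The quadratic form -/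

theorem abe_meas (V : Matrix (Fin n) (Fin m) ℝ) (w : Fin m → ℝ) :
    Measurable (fun y : Fin n → ℝ => w ⬝ᵥ (TT V V y)⁻¹ *ᵥ w) := by
  have hT : Continuous (fun y : Fin n → ℝ => TT V V y) := by
    unfold TT
    exact (continuous_const.matrix_mul (continuous_id.matrix_diagonal)).matrix_mul
      continuous_const
  have hdet : Measurable (fun y : Fin n → ℝ => ((TT V V y).det)⁻¹) := hT.matrix_det.measurable.inv
  have hadj : ∀ c d, Measurable (fun y : Fin n → ℝ => (TT V V y).adjugate c d) := fun c d =>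
    (hT.matrix_adjugate.matrix_elem c d).measurable
  have e : (fun y : Fin n → ℝ => w ⬝ᵥ (TT V V y)⁻¹ *ᵥ w) =
      fun y => ∑ c, w c * ∑ d, ((TT V V y).det)⁻¹ * (TT V V y).adjugate c d * w d := by
    funext y
    simp only [dotProduct, mulVec, Matrix.inv_def, Ring.inverse_eq_inv', Matrix.smul_apply,
      smul_eq_mul]
  rw [e]
  exact Finset.measurable_fun_sum _ fun c _ => measurable_const.mul
    (Finset.measurable_fun_sum _ fun d _ => (hdet.mul (hadj c d)).mul measurable_const)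

/-- The pointwise facts. -/
theorem abe_pt (hA : ST_ABP1) (h : RB P a b ρ) (V : Matrix (Fin n) (Fin m) ℝ)
    (hV : TT V V ρ = 1) (w : Fin m → ℝ) : ∀ᵐ y ∂P, y ∈ Og n ∧
      0 ≤ w ⬝ᵥ (TT V V y)⁻¹ *ᵥ w ∧
      w ⬝ᵥ (TT V V y)⁻¹ *ᵥ w ≤ ∑ j, ρ j ^ 2 * (V j ⬝ᵥ w) ^ 2 * (y j)⁻¹ ∧
      ∀ c : ℝ, 2 * c * (w ⬝ᵥ w) - ∑ j, c ^ 2 * (V j ⬝ᵥ w) ^ 2 * y j
        ≤ w ⬝ᵥ (TT V V y)⁻¹ *ᵥ w := by
  filter_upwards [abe_pos h] with y hy
  have h1 := (hA n m V y ρ hy h.r0 hV).2 w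
  have h2 := (h1.2 0)
  refine ⟨hy, ?_, ?_, ?_⟩
  · linarith
  · have e : ∑ j, ρ j ^ 2 / y j * (V j ⬝ᵥ w) ^ 2 = ∑ j, ρ j ^ 2 * (V j ⬝ᵥ w) ^ 2 * (y j)⁻¹ :=
      Finset.sum_congr rfl fun j _ => by ring
    rw [← e]
    exact h1.1
  · intro c
    have e : c ^ 2 * ∑ j, y j * (V j ⬝ᵥ w) ^ 2 = ∑ j, c ^ 2 * (V j ⬝ᵥ w) ^ 2 * y j := by
      rw [Finset.mul_sum]
      exact Finset.sum_congr rfl fun j _ => by ring
    rw [← e]
    exact h1.2 c

theorem abe_qbd (hA : ST_ABP1) (h : RB P a b ρ) (V : Matrix (Fin n) (Fin m) ℝ)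
    (hV : TT V V ρ = 1) (w : Fin m → ℝ) :
    abe_bd P (fun y => w ⬝ᵥ (TT V V y)⁻¹ *ᵥ w) := by
  obtain ⟨_, C, hC⟩ := abe_sum (P := P) (Finset.univ : Finset (Fin n))
    (fun j y => ρ j ^ 2 * (V j ⬝ᵥ w) ^ 2 * (y j)⁻¹)
    (fun j _ => abe_mul (abe_const P (ρ j ^ 2 * (V j ⬝ᵥ w) ^ 2)) (abe_inv h j))
  refine ⟨abe_meas V w, C, ?_⟩
  filter_upwards [abe_pt hA h V hV w, hC] with y h1 h2
  rw [abs_of_nonneg h1.2.1]
  exact h1.2.2.1.trans ((le_abs_self _).trans h2)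

theorem abe_norm (V : Matrix (Fin n) (Fin m) ℝ) (hV : TT V V ρ = 1) (w : Fin m → ℝ) :
    ∑ j, ρ j * (V j ⬝ᵥ w) ^ 2 = w ⬝ᵥ w := by
  have h1 : w ⬝ᵥ (TT V V ρ) *ᵥ w = w ⬝ᵥ w := by rw [hV, one_mulVec]
  rw [← h1]
  unfold TT
  rw [← mulVec_mulVec, ← mulVec_mulVec, dotProduct_mulVec, vecMul_transpose]
  simp only [dotProduct, mulVec_diagonal]
  refine Finset.sum_congr rfl fun j _ => ?_
  simp only [mulVec, dotProduct]
  ring

/-- An upper bound for the integral of a nonnegative weight times the form. -/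
theorem abe_up (hA : ST_ABP1) (h : RB P a b ρ) (V : Matrix (Fin n) (Fin m) ℝ)
    (hV : TT V V ρ = 1) (w : Fin m → ℝ) (g : (Fin n → ℝ) → ℝ) (hg : abe_bd P g)
    (hg0 : ∀ᵐ y ∂P, 0 ≤ g y) (K : ℝ)
    (hK : ∀ j, ∫ y, g y * (y j)⁻¹ ∂P ≤ K * (ρ j)⁻¹) :
    ∫ y, g y * (w ⬝ᵥ (TT V V y)⁻¹ *ᵥ w) ∂P ≤ K * (w ⬝ᵥ w) := by
  have := h.pr
  have I : ∀ j, Integrable (fun y : Fin n → ℝ => ρ j ^ 2 * (V j ⬝ᵥ w) ^ 2 * (g y * (y j)⁻¹)) P :=
    fun j => (abe_int (abe_mul hg (abe_inv h j))).const_mul _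
  have h1 : ∫ y, g y * (w ⬝ᵥ (TT V V y)⁻¹ *ᵥ w) ∂P ≤
      ∫ y, ∑ j, ρ j ^ 2 * (V j ⬝ᵥ w) ^ 2 * (g y * (y j)⁻¹) ∂P := by
    refine integral_mono_ae (abe_int (abe_mul hg (abe_qbd hA h V hV w)))
      (integrable_finsetSum _ fun j _ => I j) ?_
    filter_upwards [abe_pt hA h V hV w, hg0] with y h2 h3
    have e : ∑ j, ρ j ^ 2 * (V j ⬝ᵥ w) ^ 2 * (g y * (y j)⁻¹) =
        g y * ∑ j, ρ j ^ 2 * (V j ⬝ᵥ w) ^ 2 * (y j)⁻¹ := by
      rw [Finset.mul_sum]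
      exact Finset.sum_congr rfl fun j _ => by ring
    show g y * _ ≤ _
    rw [e]
    exact mul_le_mul_of_nonneg_left h2.2.2.1 h3
  rw [integral_finsetSum _ fun j _ => I j] at h1
  refine h1.trans ?_
  have h2 : ∀ j ∈ (Finset.univ : Finset (Fin n)),
      ∫ y, ρ j ^ 2 * (V j ⬝ᵥ w) ^ 2 * (g y * (y j)⁻¹) ∂P ≤ K * (ρ j * (V j ⬝ᵥ w) ^ 2) := by
    intro j _
    rw [integral_const_mul]
    have h3 := mul_le_mul_of_nonneg_left (hK j)
      (show 0 ≤ ρ j ^ 2 * (V j ⬝ᵥ w) ^ 2 by positivity)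
    have hj : 0 < ρ j := h.r0 j
    have e : ρ j ^ 2 * (V j ⬝ᵥ w) ^ 2 * (K * (ρ j)⁻¹) = K * (ρ j * (V j ⬝ᵥ w) ^ 2) := by
      field_simp
    rwa [e] at h3
  refine (Finset.sum_le_sum h2).trans ?_
  rw [← Finset.mul_sum, abe_norm V hV w]

/-- (5) -/
theorem abe_low (hA : ST_ABP1) (h : RB P a b ρ) (V : Matrix (Fin n) (Fin m) ℝ)
    (hV : TT V V ρ = 1) (w : Fin m → ℝ) :
    w ⬝ᵥ w ≤ 1076 / 1000 * ∫ y, w ⬝ᵥ (TT V V y)⁻¹ *ᵥ w ∂P := by
  have := h.pr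
  set c : ℝ := 1000 / 1076 with hc
  have I : ∀ j, Integrable (fun y : Fin n → ℝ => c ^ 2 * (V j ⬝ᵥ w) ^ 2 * y j) P :=
    fun j => (abe_int (abe_y h j)).const_mul _
  have IS : Integrable (fun y : Fin n → ℝ => ∑ j, c ^ 2 * (V j ⬝ᵥ w) ^ 2 * y j) P :=
    integrable_finsetSum _ fun j _ => I j
  have IC : Integrable (fun _ : Fin n → ℝ => 2 * c * (w ⬝ᵥ w)) P := integrable_const _
  have h1 : ∫ y, (2 * c * (w ⬝ᵥ w) - ∑ j, c ^ 2 * (V j ⬝ᵥ w) ^ 2 * y j) ∂P ≤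
      ∫ y, w ⬝ᵥ (TT V V y)⁻¹ *ᵥ w ∂P := by
    refine integral_mono_ae (IC.sub IS) (abe_int (abe_qbd hA h V hV w)) ?_
    filter_upwards [abe_pt hA h V hV w] with y h2
    exact h2.2.2.2 c
  rw [integral_sub IC IS, integral_finsetSum _ fun j _ => I j] at h1
  simp only [integral_const, probReal_univ, smul_eq_mul, one_mul, integral_const_mul] at h1
  have h2 : ∑ j, c ^ 2 * (V j ⬝ᵥ w) ^ 2 * ∫ y, y j ∂P ≤
      ∑ j, c ^ 2 * (1076 / 1000) * (ρ j * (V j ⬝ᵥ w) ^ 2) := by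
    refine Finset.sum_le_sum fun j _ => ?_
    have h3 := mul_le_mul_of_nonneg_left (h.p1 j)
      (show 0 ≤ c ^ 2 * (V j ⬝ᵥ w) ^ 2 by positivity)
    linarith
  rw [← Finset.mul_sum, abe_norm V hV w] at h2
  rw [hc] at h1 h2
  linarith

theorem st_ABE (hA : ST_ABP1) : ST_ABE := by
  intro n m P a b ρ V h hV
  have := h.pr
  refine ⟨abe_one h, abe_two h, abe_three h, ?_, abe_low hA h V hV, ?_, ?_⟩
  · intro w
    have h1 := abe_up hA h V hV w (fun _ => 1) (abe_const P 1)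
      (Filter.Eventually.of_forall fun _ => zero_le_one) 1 (fun j => by
        simp only [one_mul]
        exact (h.m1 j).le)
    simpa only [one_mul] using h1
  · intro i w
    have hi : 0 < ρ i := h.r0 i
    have h1 := abe_up hA h V hV w (fun y => ρ i ^ 2 / y i) (by
        have h2 := abe_mul (abe_const P (ρ i ^ 2)) (abe_inv h i)
        simpa only [div_eq_mul_inv] using h2)
      (by
        filter_upwards [abe_pos h] with y hy
        have := hy i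
        positivity)
      (1075 / 1000 * ρ i) (fun j => by
        have e : (fun y : Fin n → ℝ => ρ i ^ 2 / y i * (y j)⁻¹) =
            fun y => ρ i ^ 2 * ((y i)⁻¹ * (y j)⁻¹) := by
          funext y
          rw [div_eq_mul_inv, mul_assoc]
        rw [e, integral_const_mul]
        have h2 := mul_le_mul_of_nonneg_left (abe_one h i j) (sq_nonneg (ρ i))
        have e3 : ρ i ^ 2 * (1075 / 1000 * ((ρ i)⁻¹ * (ρ j)⁻¹)) =
            1075 / 1000 * ρ i * (ρ j)⁻¹ := by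
          field_simp
        rwa [e3] at h2)
    exact h1
  · intro i w
    have h1 := abe_up hA h V hV w (fun y => (y i - ρ i) ^ 2 / y i) (abe_dev h i)
      (by
        filter_upwards [abe_pos h] with y hy
        have := hy i
        positivity)
      (24804 / 100000 * ρ i) (fun j => by
        have h2 := abe_two h i j
        rw [mul_assoc]
        exact h2)
    exact h1

end

end Pool.Agent.Helper44.GH
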